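import Pool.Agent.Y350.FR.Chain

/-!
# The largest denominator of a representation of `1` by `r` blocks: much larger lower bounds

`f(r)` is the largest denominator of a representation of `1` as a sum of distinct unit fractions
whose denominators form `r` blocks of consecutive integers.  The starting files give
`f(r) ≥ (3 ^ (2 ^ r) - 1) / 4` for `r ≥ 2`, and `f(r) ≥ n ^ (2 ^ (r - 2))` for `r > (4n)!`.  Here:

* `f(3) ≥ 57960`, and `4 f(r) + 1 ≥ 231841 ^ (2 ^ (r - 3))` for `r ≥ 3` (`231841 ^ (1 / 8) = 4.68...`);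
* `f(4) ≥ 154483738920`, and `4 f(r) + 1 ≥ 617934955681 ^ (2 ^ (r - 4))` for `r ≥ 4`
  (`617934955681 ^ (1 / 16) = 5.45...`);
* `4 f(r) + 1 ≥ 7 ^ (2 ^ r), 16 ^ (2 ^ r), 21 ^ (2 ^ r), 29 ^ (2 ^ r), 33 ^ (2 ^ r)` for
  `r ≥ 6, 8, 9, 12, 13`;
* `f(r) ≥ n ^ (2 ^ (r - 2))` for `r ≥ e ^ (22 n)`, so that `f(r) ≥ (c log r) ^ (2 ^ (r - 2))`.

The block `{36, ..., 96}` is the reason for the large bases: the sum of the reciprocals of its
elements is `1 - 1 / 54730.2...`.  It is continued by the block `{109460, 109461}` or the block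
`{602027, ..., 602037}`, and by further single denominators, chosen by a search so that numerator and
denominator of the remainder have large common factors, until the remainder is a unit fraction
`1 / D`; then pairs `{2D, 2D + 1}` are added, which replace `D` by `2D (2D + 1)`.
-/

set_option autoImplicit false
set_option exponentiation.threshold 100000

namespace Pool.Agent.Results.MP_5e6778_nt.LargeBase

open Pool.Agent.Results.MP_5e6778_nt.Growth Pool.Agent.Y350.FR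

theorem base_pow {G X r0 r : ℕ} (h : G ^ (2 ^ r0) ≤ X) (hr : r0 ≤ r) :
    G ^ (2 ^ r) ≤ X ^ (2 ^ (r - r0)) := by
  obtain ⟨j, rfl⟩ : ∃ j, r = r0 + j := ⟨r - r0, by omega⟩
  rw [show r0 + j - r0 = j by omega, pow_add, pow_mul]
  exact Nat.pow_le_pow_left h _

theorem bound_of {k X G : ℕ} (h : ∃ (S : Finset ℕ) (m : ℕ), St k S m 1 X)
    (hG : G ^ (2 ^ (k + 1)) ≤ 4 * X + 1) (r : ℕ) (hr : k + 1 ≤ r) :
    ∃ (S : Finset ℕ) (x : ℕ), IsBlockRep r S ∧ x ∈ S ∧ G ^ (2 ^ r) ≤ 4 * x + 1 := by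
  obtain ⟨S, x, h1, h2, h3⟩ := from_unit h r hr
  refine ⟨S, x, h1, h2, ?_⟩
  rw [h3]
  exact base_pow hG hr

/-- **Lower bounds for the largest denominator of an `r`-block representation of `1`.** -/
theorem result :
    (∀ r : ℕ, 3 ≤ r → ∃ (S : Finset ℕ) (x : ℕ), IsBlockRep r S ∧ x ∈ S ∧
      4 * x + 1 = 231841 ^ (2 ^ (r - 3))) ∧
    (∀ r : ℕ, 4 ≤ r → ∃ (S : Finset ℕ) (x : ℕ), IsBlockRep r S ∧ x ∈ S ∧
      4 * x + 1 = 617934955681 ^ (2 ^ (r - 4))) ∧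
    (∀ r : ℕ, 6 ≤ r → ∃ (S : Finset ℕ) (x : ℕ), IsBlockRep r S ∧ x ∈ S ∧
      7 ^ (2 ^ r) ≤ 4 * x + 1) ∧
    (∀ r : ℕ, 8 ≤ r → ∃ (S : Finset ℕ) (x : ℕ), IsBlockRep r S ∧ x ∈ S ∧
      16 ^ (2 ^ r) ≤ 4 * x + 1) ∧
    (∀ r : ℕ, 9 ≤ r → ∃ (S : Finset ℕ) (x : ℕ), IsBlockRep r S ∧ x ∈ S ∧
      21 ^ (2 ^ r) ≤ 4 * x + 1) ∧
    (∀ r : ℕ, 12 ≤ r → ∃ (S : Finset ℕ) (x : ℕ), IsBlockRep r S ∧ x ∈ S ∧
      29 ^ (2 ^ r) ≤ 4 * x + 1) ∧
    (∀ r : ℕ, 13 ≤ r → ∃ (S : Finset ℕ) (x : ℕ), IsBlockRep r S ∧ x ∈ S ∧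
      33 ^ (2 ^ r) ≤ 4 * x + 1) ∧
    (∀ n : ℕ, 2 ≤ n → ∀ r : ℕ, Real.exp (22 * n) ≤ (r : ℝ) →
      ∃ (S : Finset ℕ) (x : ℕ), IsBlockRep r S ∧ x ∈ S ∧ n ^ (2 ^ (r - 2)) ≤ x) := by
  refine ⟨fun r hr => ?_, fun r hr => ?_, fun r hr => bound_of g5 (by decide +kernel) r hr,
    fun r hr => bound_of h7 (by decide +kernel) r hr, fun r hr => bound_of c8 (by decide +kernel) r hr,
    fun r hr => bound_of u11 (by decide +kernel) r hr,
    fun r hr => bound_of v12 (by decide +kernel) r hr, fun n hn r hr => ?_⟩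
  · obtain ⟨S, x, h1, h2, h3⟩ := from_unit a2 r (by omega)
    exact ⟨S, x, h1, h2, h3⟩
  · obtain ⟨S, x, h1, h2, h3⟩ := from_unit e3 r (by omega)
    exact ⟨S, x, h1, h2, h3⟩
  · obtain ⟨S, h1, x, h2, h3⟩ := growth_exp n hn r hr
    exact ⟨S, x, h1, h2, h3⟩

end Pool.Agent.Results.MP_5e6778_nt.LargeBase
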